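import Mathlib
import Pool.Agent.Lib.helper25.SqrtCF

set_option autoImplicit false

namespace Pool.Agent.Results.MP_c624c9_nt.Counterexample

/-- `orb k d n = f_d^n(∞)` for `n ≥ 1`, where `f_d(x) = (d x + k) / (x + d)` and `f_d(∞) = d`. -/
def orb (k : ℕ) (d : ℚ) (n : ℕ) : ℚ := (fun x : ℚ => (d * x + k) / (x + d))^[n - 1] d

/-- `R(k, d) = 4 d² / (k - d²)` is an integer. -/
def RInt (k : ℕ) (d : ℚ) : Prop := ∃ R : ℤ, 4 * d ^ 2 / (k - d ^ 2) = R

/-- `x = p / q` in lowest terms with `p, q > 0` and `p² - k q² = ±1`. -/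
def Pellian (k : ℕ) (x : ℚ) : Prop :=
  0 < x.num ∧ (x.num ^ 2 - k * (x.den : ℤ) ^ 2 = 1 ∨ x.num ^ 2 - k * (x.den : ℤ) ^ 2 = -1)

instance (k : ℕ) (x : ℚ) : Decidable (Pellian k x) := by unfold Pellian; infer_instance

noncomputable def al (m d : ℤ) : ℝ := ((m : ℝ) + Real.sqrt (375 : ℕ)) / d

lemma s_eq : Real.sqrt (375 : ℕ) = al 0 1 := by simp [al]

lemma s0 : ⌊al 0 1⌋ = 19 ∧ (Int.fract (al 0 1))⁻¹ = al 19 14 :=
  Pool.Agent.Lib.H25SqrtCF.step 375 19 0 1 19 19 14 (by norm_num) (by norm_num) (by norm_num)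
    (by norm_num) (by norm_num) (by norm_num) (by norm_num) (by norm_num) (by norm_num)

lemma s1 : ⌊al 19 14⌋ = 2 ∧ (Int.fract (al 19 14))⁻¹ = al 9 21 :=
  Pool.Agent.Lib.H25SqrtCF.step 375 19 19 14 2 9 21 (by norm_num) (by norm_num) (by norm_num)
    (by norm_num) (by norm_num) (by norm_num) (by norm_num) (by norm_num) (by norm_num)

lemma s2 : ⌊al 9 21⌋ = 1 ∧ (Int.fract (al 9 21))⁻¹ = al 12 11 :=
  Pool.Agent.Lib.H25SqrtCF.step 375 19 9 21 1 12 11 (by norm_num) (by norm_num) (by norm_num)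
    (by norm_num) (by norm_num) (by norm_num) (by norm_num) (by norm_num) (by norm_num)

lemma s3 : ⌊al 12 11⌋ = 2 ∧ (Int.fract (al 12 11))⁻¹ = al 10 25 :=
  Pool.Agent.Lib.H25SqrtCF.step 375 19 12 11 2 10 25 (by norm_num) (by norm_num) (by norm_num)
    (by norm_num) (by norm_num) (by norm_num) (by norm_num) (by norm_num) (by norm_num)

lemma s4 : ⌊al 10 25⌋ = 1 ∧ (Int.fract (al 10 25))⁻¹ = al 15 6 :=
  Pool.Agent.Lib.H25SqrtCF.step 375 19 10 25 1 15 6 (by norm_num) (by norm_num) (by norm_num)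
    (by norm_num) (by norm_num) (by norm_num) (by norm_num) (by norm_num) (by norm_num)

lemma s5 : ⌊al 15 6⌋ = 5 ∧ (Int.fract (al 15 6))⁻¹ = al 15 25 :=
  Pool.Agent.Lib.H25SqrtCF.step 375 19 15 6 5 15 25 (by norm_num) (by norm_num) (by norm_num)
    (by norm_num) (by norm_num) (by norm_num) (by norm_num) (by norm_num) (by norm_num)

lemma s6 : ⌊al 15 25⌋ = 1 ∧ (Int.fract (al 15 25))⁻¹ = al 10 11 :=
  Pool.Agent.Lib.H25SqrtCF.step 375 19 15 25 1 10 11 (by norm_num) (by norm_num) (by norm_num)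
    (by norm_num) (by norm_num) (by norm_num) (by norm_num) (by norm_num) (by norm_num)

lemma s7 : ⌊al 10 11⌋ = 2 ∧ (Int.fract (al 10 11))⁻¹ = al 12 21 :=
  Pool.Agent.Lib.H25SqrtCF.step 375 19 10 11 2 12 21 (by norm_num) (by norm_num) (by norm_num)
    (by norm_num) (by norm_num) (by norm_num) (by norm_num) (by norm_num) (by norm_num)

lemma s8 : ⌊al 12 21⌋ = 1 ∧ (Int.fract (al 12 21))⁻¹ = al 9 14 :=
  Pool.Agent.Lib.H25SqrtCF.step 375 19 12 21 1 9 14 (by norm_num) (by norm_num) (by norm_num)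
    (by norm_num) (by norm_num) (by norm_num) (by norm_num) (by norm_num) (by norm_num)

lemma s9 : ⌊al 9 14⌋ = 2 ∧ (Int.fract (al 9 14))⁻¹ = al 19 1 :=
  Pool.Agent.Lib.H25SqrtCF.step 375 19 9 14 2 19 1 (by norm_num) (by norm_num) (by norm_num)
    (by norm_num) (by norm_num) (by norm_num) (by norm_num) (by norm_num) (by norm_num)

lemma c0 : (Real.sqrt (375 : ℕ)).convergent 0 = 19 / 1 := by
  rw [s_eq, Real.convergent_zero, s0.1]
  norm_num

lemma c1 : (Real.sqrt (375 : ℕ)).convergent 1 = 39 / 2 := by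
  rw [s_eq, Real.convergent_succ, s0.1, s0.2, Real.convergent_zero, s1.1]
  norm_num

lemma c2 : (Real.sqrt (375 : ℕ)).convergent 2 = 58 / 3 := by
  rw [s_eq, Real.convergent_succ, s0.1, s0.2, Real.convergent_succ, s1.1, s1.2, Real.convergent_zero, s2.1]
  norm_num

lemma c3 : (Real.sqrt (375 : ℕ)).convergent 3 = 155 / 8 := by
  rw [s_eq, Real.convergent_succ, s0.1, s0.2, Real.convergent_succ, s1.1, s1.2, Real.convergent_succ, s2.1, s2.2, Real.convergent_zero, s3.1]
  norm_num

lemma c4 : (Real.sqrt (375 : ℕ)).convergent 4 = 213 / 11 := by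
  rw [s_eq, Real.convergent_succ, s0.1, s0.2, Real.convergent_succ, s1.1, s1.2, Real.convergent_succ, s2.1, s2.2, Real.convergent_succ, s3.1, s3.2, Real.convergent_zero, s4.1]
  norm_num

lemma c5 : (Real.sqrt (375 : ℕ)).convergent 5 = 1220 / 63 := by
  rw [s_eq, Real.convergent_succ, s0.1, s0.2, Real.convergent_succ, s1.1, s1.2, Real.convergent_succ, s2.1, s2.2, Real.convergent_succ, s3.1, s3.2, Real.convergent_succ, s4.1, s4.2, Real.convergent_zero, s5.1]
  norm_num

lemma c6 : (Real.sqrt (375 : ℕ)).convergent 6 = 1433 / 74 := by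
  rw [s_eq, Real.convergent_succ, s0.1, s0.2, Real.convergent_succ, s1.1, s1.2, Real.convergent_succ, s2.1, s2.2, Real.convergent_succ, s3.1, s3.2, Real.convergent_succ, s4.1, s4.2, Real.convergent_succ, s5.1, s5.2, Real.convergent_zero, s6.1]
  norm_num

lemma c7 : (Real.sqrt (375 : ℕ)).convergent 7 = 4086 / 211 := by
  rw [s_eq, Real.convergent_succ, s0.1, s0.2, Real.convergent_succ, s1.1, s1.2, Real.convergent_succ, s2.1, s2.2, Real.convergent_succ, s3.1, s3.2, Real.convergent_succ, s4.1, s4.2, Real.convergent_succ, s5.1, s5.2, Real.convergent_succ, s6.1, s6.2, Real.convergent_zero, s7.1]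
  norm_num

lemma c8 : (Real.sqrt (375 : ℕ)).convergent 8 = 5519 / 285 := by
  rw [s_eq, Real.convergent_succ, s0.1, s0.2, Real.convergent_succ, s1.1, s1.2, Real.convergent_succ, s2.1, s2.2, Real.convergent_succ, s3.1, s3.2, Real.convergent_succ, s4.1, s4.2, Real.convergent_succ, s5.1, s5.2, Real.convergent_succ, s6.1, s6.2, Real.convergent_succ, s7.1, s7.2, Real.convergent_zero, s8.1]
  norm_num

lemma c9 : (Real.sqrt (375 : ℕ)).convergent 9 = 15124 / 781 := by
  rw [s_eq, Real.convergent_succ, s0.1, s0.2, Real.convergent_succ, s1.1, s1.2, Real.convergent_succ, s2.1, s2.2, Real.convergent_succ, s3.1, s3.2, Real.convergent_succ, s4.1, s4.2, Real.convergent_succ, s5.1, s5.2, Real.convergent_succ, s6.1, s6.2, Real.convergent_succ, s7.1, s7.2, Real.convergent_succ, s8.1, s8.2, Real.convergent_zero, s9.1]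
  norm_num

lemma notR (d : ℚ) (h : (4 * d ^ 2 / ((375 : ℕ) - d ^ 2)).den ≠ 1) : ¬ RInt 375 d := by
  rintro ⟨R, hR⟩
  rw [hR] at h
  simp at h

theorem result : ¬ ∀ k : ℕ, 0 < k → ¬ IsSquare k → ∀ i n j : ℕ,
    IsLeast {i : ℕ | RInt k ((Real.sqrt k).convergent i)} i →
    IsLeast {n : ℕ | 1 ≤ n ∧ Pellian k (orb k ((Real.sqrt k).convergent i) n)} n →
    IsLeast {j : ℕ | Pellian k ((Real.sqrt k).convergent j)} j →
    orb k ((Real.sqrt k).convergent i) n = (Real.sqrt k).convergent j := by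
  intro h
  have h1 := h 375 (by norm_num) (by decide +kernel) 3 5 9 ⟨?_, ?_⟩ ⟨?_, ?_⟩ ⟨?_, ?_⟩
  · rw [c3, c9] at h1
    revert h1
    decide +kernel
  · change RInt _ _
    rw [c3]
    exact ⟨-3844, by norm_num⟩
  · intro i hi
    change RInt _ _ at hi
    by_contra hlt
    have : i < 3 := by omega
    interval_cases i
    · rw [c0] at hi; exact notR _ (by decide +kernel) hi
    · rw [c1] at hi; exact notR _ (by decide +kernel) hi
    · rw [c2] at hi; exact notR _ (by decide +kernel) hi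
  · change _ ∧ Pellian _ _
    rw [c3]
    decide +kernel
  · rintro n ⟨h1, h2⟩
    rw [c3] at h2
    by_contra hlt
    have : n < 5 := by omega
    interval_cases n <;> revert h2 <;> decide +kernel
  · change Pellian _ _
    rw [c9]
    decide +kernel
  · intro j hj
    change Pellian _ _ at hj
    by_contra hlt
    have : j < 9 := by omega
    interval_cases j
    · rw [c0] at hj; revert hj; decide +kernel
    · rw [c1] at hj; revert hj; decide +kernel
    · rw [c2] at hj; revert hj; decide +kernel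
    · rw [c3] at hj; revert hj; decide +kernel
    · rw [c4] at hj; revert hj; decide +kernel
    · rw [c5] at hj; revert hj; decide +kernel
    · rw [c6] at hj; revert hj; decide +kernel
    · rw [c7] at hj; revert hj; decide +kernel
    · rw [c8] at hj; revert hj; decide +kernel

end Pool.Agent.Results.MP_c624c9_nt.Counterexample
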